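import Mathlib
import Pool.Agent.Q16.Tor.Grp

/-!
# A metrizable abelian group whose dual is not an s-group

`G` is the group of all sequences in the circle with the uniform metric.  Its dual in the
compact-open topology is not discrete but every null sequence in it is eventually zero, so the
finest group topology making any family of null sequences converge is the discrete one.
-/

open Filter Topology

namespace Pool.Agent.Results.MP_c8715f_al.DualNotSGroup

/-- `τ` is a Hausdorff group topology on the abelian group `A`. -/
def IsHausdorffGroupTopology {A : Type*} [AddCommGroup A] (τ : TopologicalSpace A) : Prop :=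
  @T2Space A τ ∧ @IsTopologicalAddGroup A τ _

/-- All sequences of `S` converge to `0` for the topology `τ`. -/
def MakesNull {A : Type*} [AddCommGroup A] (S : Set (ℕ → A)) (τ : TopologicalSpace A) : Prop :=
  ∀ u ∈ S, Tendsto u atTop (@nhds A τ 0)

/-- The topological group `A` is an s-group: there is a set `S` of sequences such that the topology
of `A` is the finest Hausdorff group topology in which all sequences of `S` converge to `0`. -/
def IsSGroup (A : Type*) [AddCommGroup A] [τ : TopologicalSpace A] : Prop :=
  ∃ S : Set (ℕ → A), IsHausdorffGroupTopology τ ∧ MakesNull S τ ∧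
    ∀ σ : TopologicalSpace A, IsHausdorffGroupTopology σ → MakesNull S σ → τ ≤ σ

theorem not_isSGroup : ¬ IsSGroup Q16.Tor.Gd := by
  rintro ⟨S, -, hS, hfin⟩
  have hdis : IsHausdorffGroupTopology (⊥ : TopologicalSpace Q16.Tor.Gd) := by
    let _ : TopologicalSpace Q16.Tor.Gd := ⊥
    have : DiscreteTopology Q16.Tor.Gd := ⟨rfl⟩
    exact ⟨inferInstance, inferInstance⟩
  have hnull : MakesNull S (⊥ : TopologicalSpace Q16.Tor.Gd) := by
    intro u hu
    have h1 := Q16.Tor.null_seq u (hS u hu)
    have h2 : @nhds Q16.Tor.Gd ⊥ 0 = pure 0 := by
      let _ : TopologicalSpace Q16.Tor.Gd := ⊥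
      have : DiscreteTopology Q16.Tor.Gd := ⟨rfl⟩
      exact congrFun (nhds_discrete Q16.Tor.Gd) 0
    rw [h2, tendsto_pure]
    exact h1
  have hle := hfin ⊥ hdis hnull
  have hU : ({0} : Set Q16.Tor.Gd) ∈ 𝓝 (0 : Q16.Tor.Gd) := by
    have hopen : IsOpen ({0} : Set Q16.Tor.Gd) := hle _ trivial
    exact hopen.mem_nhds rfl
  obtain ⟨χ, hχ, hne⟩ := Q16.Tor.not_isolated _ hU
  exact hne hχ

/-- The negated form of Q1, for all three classes at once: there is a non-separable metrizable
(hence Fréchet–Urysohn and sequential) abelian topological group `G` whose dual group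
`G^` (continuous characters with the compact-open topology) is not an s-group. -/
theorem result : ∃ (G : Type) (_ : AddCommGroup G) (_ : TopologicalSpace G)
    (_ : IsTopologicalAddGroup G), T2Space G ∧
    TopologicalSpace.MetrizableSpace G ∧ ¬ TopologicalSpace.SeparableSpace G ∧
    FrechetUrysohnSpace G ∧ SequentialSpace G ∧
    ¬ IsSGroup (G →ₜ+ AddCircle (1 : ℝ)) :=
  ⟨Q16.Tor.Gp, inferInstance, inferInstance, inferInstance, inferInstance, inferInstance,
    Q16.Tor.not_separable, inferInstance, inferInstance, not_isSGroup⟩

end Pool.Agent.Results.MP_c8715f_al.DualNotSGroup
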